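import Pool.Agent.W785.FD.Stms

/-!
# One of the two components is thin (FD-MP)
-/

set_option autoImplicit false

open MeasureTheory Metric Set Filter
open scoped ENNReal NNReal Topology

namespace Pool.Agent.W929.FD.MP

open Pool.Agent.W785.FD

universe u

section basic

variable {X : Type u} [MetricSpace X] [MeasurableSpace X]

theorem dens_add (μ : Measure X) {D : ℝ} (hD : Dbl μ D) {V : Set X}
    (hV : NullMeasurableSet V μ) (x : X) {r : ℝ} (hr : 0 < r) :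
    dens μ V x r + dens μ Vᶜ x r = 1 := by
  unfold dens
  rw [← ENNReal.add_div]
  have h := measure_inter_add_sdiff₀ (μ := μ) (ball x r) hV
  rw [inter_comm V, inter_comm Vᶜ, ← sdiff_eq, h]
  exact ENNReal.div_self (hD.pos x r hr).ne' (hD.fin x r).ne

theorem dens_half (μ : Measure X) {D : ℝ} (hD : Dbl μ D) (V : Set X) (x : X) {r : ℝ}
    (hr : 0 < r) : dens μ V x r ≤ ENNReal.ofReal D * dens μ V x (2 * r) := by
  unfold dens
  have h1 := hD.dbl x r hr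
  have h2 : 0 < μ (ball x (2 * r)) := hD.pos x _ (by linarith)
  have h3 : μ (V ∩ ball x r) ≤ μ (V ∩ ball x (2 * r)) :=
    measure_mono (inter_subset_inter_right _ (ball_subset_ball (by linarith)))
  rw [ENNReal.div_le_iff (hD.pos x r hr).ne' (hD.fin x r).ne]
  calc μ (V ∩ ball x r) ≤ μ (V ∩ ball x (2 * r)) := h3
    _ = μ (V ∩ ball x (2 * r)) / μ (ball x (2 * r)) * μ (ball x (2 * r)) :=
        (ENNReal.div_mul_cancel h2.ne' (hD.fin x _).ne).symm
    _ ≤ μ (V ∩ ball x (2 * r)) / μ (ball x (2 * r)) * (ENNReal.ofReal D * μ (ball x r)) := by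
        gcongr
    _ = _ := by ring

theorem dens_mono (μ : Measure X) {V W : Set X} (h : V ⊆ W) (x : X) (r : ℝ) :
    dens μ V x r ≤ dens μ W x r := by
  unfold dens
  gcongr

theorem aa_fin (μ : Measure X) {p D : ℝ} (hD : Dbl μ D) (h5 : S_CUB μ p) (h6 : S_MONO μ p)
    (V : Set X) (x : X) (k : ℕ) : aa μ p V x k ≠ ∞ := by
  obtain ⟨K, hK, hcub⟩ := h5
  have hs : (0 : ℝ) < (1 / 2) ^ k := by positivity
  have h1 : capB μ p (V ∩ ball x ((1 / 2) ^ k)) x (2 * (1 / 2) ^ k) ≤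
      ENNReal.ofReal (K / ((1 / 2) ^ k) ^ p) * μ (ball x ((1 / 2) ^ k)) :=
    (h6 _ _ x _ _ inter_subset_right le_rfl).trans (hcub x _ hs)
  have h2 : capB μ p (V ∩ ball x ((1 / 2) ^ k)) x (2 * (1 / 2) ^ k) ≠ ∞ :=
    (h1.trans_lt (ENNReal.mul_lt_top ENNReal.ofReal_lt_top (hD.fin x _))).ne
  unfold aa
  exact ENNReal.div_ne_top (ENNReal.mul_ne_top h2 ENNReal.ofReal_ne_top) (hD.pos x _ hs).ne'

theorem rpow_add_le {q : ℝ} (hq : 0 < q) (a b : ℝ≥0∞) :
    (a + b) ^ q ≤ 2 ^ q * (a ^ q + b ^ q) := by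
  rcases le_total a b with h | h
  · calc (a + b) ^ q ≤ (2 * b) ^ q := by
          refine ENNReal.rpow_le_rpow ?_ hq.le
          rw [two_mul]; gcongr
      _ = 2 ^ q * b ^ q := ENNReal.mul_rpow_of_nonneg _ _ hq.le
      _ ≤ _ := by gcongr; exact le_add_self
  · calc (a + b) ^ q ≤ (2 * a) ^ q := by
          refine ENNReal.rpow_le_rpow ?_ hq.le
          rw [two_mul]; gcongr
      _ = 2 ^ q * a ^ q := ENNReal.mul_rpow_of_nonneg _ _ hq.le
      _ ≤ _ := by gcongr; exact le_self_add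

theorem tsum_split (k : ℕ) (f : ℕ → ℝ≥0∞) :
    ∑ i ∈ Finset.range k, f i + ∑' i, f (i + k) = ∑' i, f i :=
  (ENNReal.summable (f := fun i => f (i + k))).sum_add_tsum_nat_add'

/-- A tail bound suffices. -/
theorem thin_of_tail (μ : Measure X) {p D : ℝ} (hp : 1 < p) (hD : Dbl μ D) (h2 : S_THIN μ p)
    (h5 : S_CUB μ p) (h6 : S_MONO μ p) (V : Set X) (x : X) (t : ℕ → ℝ≥0∞)
    (ht : ∑' k, t k ^ (1 / (p - 1)) ≠ ∞) (K : ℝ) (m k3 : ℕ)
    (h : ∀ k, k3 ≤ k → aa μ p V x (k + m) ≤ ENNReal.ofReal K * t k) : Thin μ p V x := by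
  have hq : 0 < 1 / (p - 1) := by have : 0 < p - 1 := by linarith
                                  positivity
  rw [h2]
  rw [← tsum_split (k3 + m)]
  refine ENNReal.add_ne_top.2 ⟨?_, ?_⟩
  · refine ENNReal.sum_ne_top.2 fun k _ => ?_
    exact ENNReal.rpow_ne_top_of_nonneg hq.le (aa_fin μ hD h5 h6 V x k)
  · have h7 : ∑' i, aa μ p V x (i + (k3 + m)) ^ (1 / (p - 1)) ≤
        ∑' i, (ENNReal.ofReal K) ^ (1 / (p - 1)) * t (i + k3) ^ (1 / (p - 1)) := by
      refine ENNReal.tsum_le_tsum fun i => ?_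
      rw [← ENNReal.mul_rpow_of_nonneg _ _ hq.le, ← add_assoc]
      exact ENNReal.rpow_le_rpow (h _ (Nat.le_add_left _ _)) hq.le
    refine (h7.trans_lt ?_).ne
    rw [ENNReal.tsum_mul_left]
    refine ENNReal.mul_lt_top (ENNReal.rpow_lt_top_of_nonneg hq.le ENNReal.ofReal_ne_top) ?_
    have h8 : ∑' i, t (i + k3) ^ (1 / (p - 1)) ≤ ∑' k, t k ^ (1 / (p - 1)) := by
      rw [← tsum_split k3 (fun k => t k ^ (1 / (p - 1)))]
      exact le_add_self
    exact h8.trans_lt ht.lt_top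

end basic

theorem main {X : Type*} [MetricSpace X] [ProperSpace X] [MeasurableSpace X] [BorelSpace X]
    (μ : Measure X) (p D : ℝ) (hp : 1 < p) (hD : Dbl μ D) (h1 : S_KEY μ p) (h2 : S_THIN μ p)
    (h3 : S_DENS μ p) (h4 : S_MEAS μ) (h5 : S_CUB μ p) (h6 : S_MONO μ p) : S_MP μ p := by
  intro V1 V2 hF1 hF2 hdis x hT
  have hq : 0 < 1 / (p - 1) := by have : 0 < p - 1 := by linarith
                                  positivity
  have hD1 := hD.one_le
  obtain ⟨τ, hτ0, hτ8, hτD⟩ : ∃ τ : ℝ, 0 < τ ∧ τ ≤ 1 / 8 ∧ D * τ + τ ≤ 1 / 2 := by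
    refine ⟨min (1 / 8) (1 / (2 * D + 2)), lt_min (by norm_num) (by positivity),
      min_le_left _ _, ?_⟩
    have h := min_le_right (1 / 8 : ℝ) (1 / (2 * D + 2))
    have h' : (D + 1) * (1 / (2 * D + 2)) = 1 / 2 := by
      have : 2 * D + 2 ≠ 0 := by positivity
      field_simp
    nlinarith
  obtain ⟨K, ε, m, hK, hε, hkey⟩ := h1 τ hτ0 hτ8
  obtain ⟨k0, hk⟩ := hkey V1 V2 hF1 hF2 hdis x
  obtain ⟨k0', hk'⟩ := hkey V2 V1 hF2 hF1 hdis.symm x
  rw [union_comm V2 V1] at hk'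
  have hsum := (h2 _ _).1 hT
  set a : ℕ → ℝ≥0∞ := fun k => aa μ p (V1 ∪ V2)ᶜ x k with ha
  set t : ℕ → ℝ≥0∞ := fun k => a k + (2⁻¹ : ℝ≥0∞) ^ k with ht
  have htsum : ∑' k, t k ^ (1 / (p - 1)) ≠ ∞ := by
    have h7 : ∑' k, t k ^ (1 / (p - 1)) ≤
        ∑' k, 2 ^ (1 / (p - 1)) * (a k ^ (1 / (p - 1)) + ((2⁻¹ : ℝ≥0∞) ^ k) ^ (1 / (p - 1))) :=
      ENNReal.tsum_le_tsum fun k => rpow_add_le hq _ _
    refine (h7.trans_lt ?_).ne
    rw [ENNReal.tsum_mul_left, ENNReal.tsum_add]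
    refine ENNReal.mul_lt_top (ENNReal.rpow_lt_top_of_nonneg hq.le (by norm_num)) ?_
    refine ENNReal.add_lt_top.2 ⟨hsum.lt_top, ?_⟩
    have h8 : ∀ k : ℕ, ((2⁻¹ : ℝ≥0∞) ^ k) ^ (1 / (p - 1)) = ((2⁻¹ : ℝ≥0∞) ^ (1 / (p - 1))) ^ k := by
      intro k
      rw [← ENNReal.rpow_natCast, ← ENNReal.rpow_natCast, ← ENNReal.rpow_mul, ← ENNReal.rpow_mul,
        mul_comm]
    simp_rw [h8]
    rw [ENNReal.tsum_geometric]
    rw [lt_top_iff_ne_top, Ne, ENNReal.inv_eq_top, tsub_eq_zero_iff_le, not_le]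
    exact ENNReal.rpow_lt_one (ENNReal.inv_lt_one.2 ENNReal.one_lt_two) hq
  have ht0 : ∀ᶠ k in atTop, t k ≤ ENNReal.ofReal ε := by
    have h7 := ENNReal.tendsto_atTop_zero_of_tsum_ne_top htsum
    have h8 : 0 < (ENNReal.ofReal ε) ^ (1 / (p - 1)) :=
      ENNReal.rpow_pos (ENNReal.ofReal_pos.2 hε) ENNReal.ofReal_ne_top
    filter_upwards [(tendsto_order.1 h7).2 _ h8] with k hk
    exact (ENNReal.rpow_le_rpow_iff hq).1 hk.le
  obtain ⟨k1, hk1⟩ := eventually_atTop.1 ht0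
  have hat : ∀ k, k1 ≤ k → a k < t k := by
    intro k hk
    have h7 : a k ≠ ∞ := by
      have := (le_self_add.trans (hk1 k hk)).trans_lt ENNReal.ofReal_lt_top
      exact this.ne
    refine ENNReal.lt_add_right h7 ?_
    exact (ENNReal.pow_pos (by norm_num) _).ne'
  obtain ⟨k2, h20, h20', h21⟩ : ∃ k2, k0 ≤ k2 ∧ k0' ≤ k2 ∧ k1 ≤ k2 :=
    ⟨max k0 (max k0' k1), le_max_left _ _, (le_max_left _ _).trans (le_max_right _ _),
      (le_max_right _ _).trans (le_max_right _ _)⟩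
  have hA : ∀ k, k2 ≤ k → ¬ Amb μ V1 τ x (2 * (1 / 2) ^ (k + m)) ∧
        (dens μ V1 x (2 * (1 / 2) ^ (k + m)) < ENNReal.ofReal τ →
          aa μ p V1 x (k + m) ≤ ENNReal.ofReal K * t k) := fun k h =>
    hk k (h20.trans h) (t k) (hat k (h21.trans h)) (hk1 k (h21.trans h))
  have hB : ∀ k, k2 ≤ k → (dens μ V2 x (2 * (1 / 2) ^ (k + m)) < ENNReal.ofReal τ →
          aa μ p V2 x (k + m) ≤ ENNReal.ofReal K * t k) := fun k h =>
    (hk' k (h20'.trans h) (t k) (hat k (h21.trans h)) (hk1 k (h21.trans h))).2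
  have hV1 : NullMeasurableSet V1 μ := h4 V1 fun y hy => h3 _ _ (hF1 y hy)
  by_cases hc : ∃ k, k2 ≤ k ∧ dens μ V1ᶜ x (2 * (1 / 2) ^ (k + m)) < ENNReal.ofReal τ
  · right
    obtain ⟨k3, hk3, hd⟩ := hc
    have hall : ∀ k, k3 ≤ k → dens μ V1ᶜ x (2 * (1 / 2) ^ (k + m)) < ENNReal.ofReal τ := by
      intro k hk
      induction k, hk using Nat.le_induction with
      | base => exact hd
      | succ j hj ih =>
        have hr : (0 : ℝ) < 2 * (1 / 2) ^ (j + 1 + m) := by positivity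
        have he : 2 * (2 * (1 / 2 : ℝ) ^ (j + 1 + m)) = 2 * (1 / 2) ^ (j + m) := by
          rw [show j + 1 + m = j + m + 1 by ring, pow_succ]; ring
        have h7 := dens_half μ hD V1ᶜ x hr
        rw [he] at h7
        have h8 : dens μ V1ᶜ x (2 * (1 / 2) ^ (j + 1 + m)) ≤ ENNReal.ofReal (D * τ) := by
          refine h7.trans ?_
          rw [ENNReal.ofReal_mul (by linarith)]
          gcongr
        have h9 := dens_add μ hD hV1 x hr
        by_contra hcon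
        refine (hA (j + 1) (by omega)).1 ⟨?_, not_lt.1 hcon⟩
        by_contra hcon2
        have h10 : dens μ V1 x (2 * (1 / 2) ^ (j + 1 + m)) +
            dens μ V1ᶜ x (2 * (1 / 2) ^ (j + 1 + m)) ≤ ENNReal.ofReal τ + ENNReal.ofReal (D * τ) :=
          add_le_add (not_le.1 hcon2).le h8
        rw [h9, ← ENNReal.ofReal_add hτ0.le (by positivity), ENNReal.one_le_ofReal] at h10
        linarith
    refine thin_of_tail μ hp hD h2 h5 h6 V2 x t htsum K m k3 fun k hk => ?_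
    refine hB k (hk3.trans hk) ?_
    refine (dens_mono μ ?_ x _).trans_lt (hall k hk)
    exact hdis.subset_compl_left
  · left
    push Not at hc
    refine thin_of_tail μ hp hD h2 h5 h6 V1 x t htsum K m k2 fun k hk => ?_
    refine (hA k hk).2 ?_
    by_contra hcon
    exact (hA k hk).1 ⟨not_lt.1 hcon, hc k hk⟩

end Pool.Agent.W929.FD.MP
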